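import Pool.Agent.helper96.DP.SpecF

/-!
# Submultiplicative functions with bounded sums decay exponentially (project dp, module ABS)
-/

namespace DP

theorem ABS_bound {C C' : ℝ} {J₀ : ℕ} (hC' : 1 ≤ C') (hJ : 1 ≤ J₀)
    {a : ℕ → ℕ → ℝ} {p₀ : ℕ} (h0 : ∀ p q, 0 ≤ a p q)
    (h2 : ∀ p' p q, p₀ ≤ p' → p' ≤ p → p ≤ p' + J₀ → p < q → a p q ≤ C' * a p' q)
    (h3 : ∀ q, ∑ n ∈ (Finset.range q).filter (fun n => p₀ + J₀ * n < q), a (p₀ + J₀ * n) q ≤ C)
    {p q : ℕ} (hp : p₀ ≤ p) (hpq : p < q) : a p q ≤ C' * C := by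
  have e1 : J₀ * ((p - p₀) / J₀) ≤ p - p₀ := Nat.mul_div_le _ _
  have e2 : p - p₀ < J₀ * ((p - p₀) / J₀) + J₀ := Nat.lt_mul_div_succ _ hJ
  have e3 : (p - p₀) / J₀ ≤ J₀ * ((p - p₀) / J₀) := Nat.le_mul_of_pos_left _ hJ
  have h4 := h2 (p₀ + J₀ * ((p - p₀) / J₀)) p q (by omega) (by omega) (by omega) hpq
  have h5 : a (p₀ + J₀ * ((p - p₀) / J₀)) q ≤ C := by
    refine le_trans ?_ (h3 q)
    refine Finset.single_le_sum (f := fun n => a (p₀ + J₀ * n) q) (fun n _ => h0 _ _) ?_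
    rw [Finset.mem_filter, Finset.mem_range]
    constructor <;> omega
  exact h4.trans (mul_le_mul_of_nonneg_left h5 (by linarith))

theorem ABS_small {C C' : ℝ} {J₀ N : ℕ} (hC : 1 ≤ C) (hC' : 1 ≤ C') (hJ : 1 ≤ J₀)
    (hN : 2 * C ^ 2 * C' ^ 3 ≤ N)
    {a : ℕ → ℕ → ℝ} {p₀ : ℕ} (h0 : ∀ p q, 0 ≤ a p q)
    (h1 : ∀ p r q, p₀ ≤ p → p < r → r < q → a p q ≤ C' * (a p r * a r q))
    (h2 : ∀ p' p q, p₀ ≤ p' → p' ≤ p → p ≤ p' + J₀ → p < q → a p q ≤ C' * a p' q)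
    (h3 : ∀ q, ∑ n ∈ (Finset.range q).filter (fun n => p₀ + J₀ * n < q), a (p₀ + J₀ * n) q ≤ C)
    {p : ℕ} (hp : p₀ ≤ p) : C' * a p (p + J₀ * (N + 1)) ≤ 1 / 2 := by
  have hb := @ABS_bound C C' J₀ hC' hJ a p₀ h0 h2 h3
  set q := p + J₀ * (N + 1) with hq
  set m := (p - p₀) / J₀ + 1 with hm
  have e1 : J₀ * ((p - p₀) / J₀) ≤ p - p₀ := Nat.mul_div_le _ _
  have e2 : p - p₀ < J₀ * ((p - p₀) / J₀) + J₀ := Nat.lt_mul_div_succ _ hJ
  have e4 : J₀ * m = J₀ * ((p - p₀) / J₀) + J₀ := by rw [hm]; ring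
  have hlow : ∀ i, p < p₀ + J₀ * (m + i) := by
    intro i
    have : J₀ * (m + i) = J₀ * m + J₀ * i := by ring
    have h5 : 0 ≤ J₀ * i := Nat.zero_le _
    omega
  have hup : ∀ i, i < N → p₀ + J₀ * (m + i) < q := by
    intro i hi
    have h5 : J₀ * (m + i) = J₀ * m + J₀ * i := by ring
    have h6 : J₀ * (i + 1) ≤ J₀ * N := Nat.mul_le_mul_left _ hi
    have h7 : J₀ * (i + 1) = J₀ * i + J₀ := by ring
    have h8 : J₀ * (N + 1) = J₀ * N + J₀ := by ring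
    omega
  -- the terms are large
  have hterm : ∀ i, i < N → a p q ≤ C' * (C' * C) * a (p₀ + J₀ * (m + i)) q := by
    intro i hi
    have h5 := h1 p (p₀ + J₀ * (m + i)) q hp (hlow i) (hup i hi)
    have h6 := hb hp (hlow i)
    calc a p q ≤ C' * (a p (p₀ + J₀ * (m + i)) * a (p₀ + J₀ * (m + i)) q) := h5
      _ ≤ C' * ((C' * C) * a (p₀ + J₀ * (m + i)) q) := by
          refine mul_le_mul_of_nonneg_left ?_ (by linarith)
          exact mul_le_mul_of_nonneg_right h6 (h0 _ _)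
      _ = _ := by ring
  -- the sum is bounded
  have hsum : ∑ i ∈ Finset.range N, a (p₀ + J₀ * (m + i)) q ≤ C := by
    refine le_trans ?_ (h3 q)
    have hinj : ∀ x ∈ Finset.range N, ∀ y ∈ Finset.range N, m + x = m + y → x = y :=
      fun x _ y _ h => by omega
    rw [← Finset.sum_image (f := fun n => a (p₀ + J₀ * n) q) (g := fun i => m + i) hinj]
    refine Finset.sum_le_sum_of_subset_of_nonneg ?_ fun _ _ _ => h0 _ _
    intro n hn
    obtain ⟨i, hi, rfl⟩ := Finset.mem_image.1 hn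
    rw [Finset.mem_range] at hi
    have h5 := hup i hi
    have h6 : m + i ≤ J₀ * (m + i) := Nat.le_mul_of_pos_left _ hJ
    rw [Finset.mem_filter, Finset.mem_range]
    constructor <;> omega
  have hN0 : (0 : ℝ) < N := lt_of_lt_of_le (by positivity) hN
  have h7 : (N : ℝ) * a p q ≤ C' * (C' * C) * C := by
    calc (N : ℝ) * a p q = ∑ _i ∈ Finset.range N, a p q := by simp
      _ ≤ ∑ i ∈ Finset.range N, C' * (C' * C) * a (p₀ + J₀ * (m + i)) q :=
          Finset.sum_le_sum fun i hi => hterm i (Finset.mem_range.1 hi)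
      _ = C' * (C' * C) * ∑ i ∈ Finset.range N, a (p₀ + J₀ * (m + i)) q := by
          rw [Finset.mul_sum]
      _ ≤ _ := mul_le_mul_of_nonneg_left hsum (by positivity)
  have h8 : 2 * C ^ 2 * C' ^ 3 * a p q ≤ C' * (C' * C) * C :=
    (mul_le_mul_of_nonneg_right hN (h0 _ _)).trans h7
  have h9 : 0 < 2 * (C ^ 2 * C' ^ 2) := by positivity
  have h10 : 2 * (C ^ 2 * C' ^ 2) * (C' * a p q) ≤ 2 * (C ^ 2 * C' ^ 2) * (1 / 2) := by
    nlinarith
  exact le_of_mul_le_mul_left h10 h9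

theorem ABS : ABS_stmt := by
  intro C C' J₀ hC hC' hJ
  obtain ⟨N, hN⟩ := exists_nat_ge (2 * C ^ 2 * C' ^ 3)
  set L : ℕ := J₀ * (N + 1) with hL
  have hLpos : 1 ≤ L := Nat.one_le_iff_ne_zero.2 (by positivity)
  have hLr : (0 : ℝ) < L := by exact_mod_cast hLpos
  refine ⟨2 * (C' * C), 1 / L, by positivity, by positivity, ?_⟩
  intro a p₀ h0 h1 h2 h3
  have hb := @ABS_bound C C' J₀ hC' hJ a p₀ h0 h2 h3
  have hs := @ABS_small C C' J₀ N hC hC' hJ hN a p₀ h0 h1 h2 h3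
  have key : ∀ d : ℕ, ∀ p q, p₀ ≤ p → p < q → q - p = d →
      a p q ≤ 2 * (C' * C) * (2 : ℝ) ^ (-(1 / (L : ℝ) * (d : ℝ))) := by
    intro d
    induction d using Nat.strong_induction_on with
    | _ d ih =>
      intro p q hp hpq hd
      rcases le_or_gt d L with hdL | hdL
      · have h4 := hb hp hpq
        have h5 : (1 : ℝ) / 2 ≤ (2 : ℝ) ^ (-(1 / (L : ℝ) * (d : ℝ))) := by
          have h6 : (2 : ℝ) ^ (-(1 : ℝ)) ≤ (2 : ℝ) ^ (-(1 / (L : ℝ) * (d : ℝ))) := by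
            apply Real.rpow_le_rpow_of_exponent_le (by norm_num)
            rw [neg_le_neg_iff, div_mul_eq_mul_div, one_mul, div_le_one hLr]
            exact_mod_cast hdL
          rwa [Real.rpow_neg_one, ← one_div] at h6
        nlinarith [mul_pos (lt_of_lt_of_le one_pos hC') (lt_of_lt_of_le one_pos hC)]
      · have h4 := h1 p (p + L) q hp (by omega) (by omega)
        have h5 := hs hp
        have h6 := ih (d - L) (by omega) (p + L) q (by omega) (by omega) (by omega)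
        have h7 : (2 : ℝ) ^ (-(1 / (L : ℝ) * ((d - L : ℕ) : ℝ))) =
            2 * (2 : ℝ) ^ (-(1 / (L : ℝ) * (d : ℝ))) := by
          rw [Nat.cast_sub hdL.le]
          have h8 : -(1 / (L : ℝ) * ((d : ℝ) - L)) = 1 + -(1 / (L : ℝ) * (d : ℝ)) := by
            field_simp
            ring
          rw [h8, Real.rpow_add (by norm_num), Real.rpow_one]
        rw [h7] at h6
        calc a p q ≤ C' * (a p (p + L) * a (p + L) q) := h4
          _ = (C' * a p (p + L)) * a (p + L) q := by ring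
          _ ≤ (1 / 2) * a (p + L) q := mul_le_mul_of_nonneg_right h5 (h0 _ _)
          _ ≤ (1 / 2) * (2 * (C' * C) * (2 * (2 : ℝ) ^ (-(1 / (L : ℝ) * (d : ℝ))))) :=
              mul_le_mul_of_nonneg_left h6 (by norm_num)
          _ = _ := by ring
  intro p q hp hpq
  have h4 := key (q - p) p q hp hpq rfl
  rwa [Nat.cast_sub hpq.le] at h4

end DP
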