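import Pool.Agent.helper96.DP.API
import Pool.Agent.helper95.DP.Fin

/-!
# FKG for the pair measure (project dp, module BFKG)

`Bfkg_ex2`: the Harris-FKG inequality for monotone local functions of pairs of configurations,
`Bfkg_ex2_anti` the same for antitone functions, `Bfkg : Bfkg_stmt`.
-/

namespace DP

open MeasureTheory

/-- Four point inequality. -/
theorem Bfkg_four {p q : ℝ} (hq : 0 ≤ q) (hpq : q ≤ p) (hs : 2 * p + 2 * q = 1)
    {A B C D A' B' C' D' : ℝ} (h1 : B ≤ A) (h2 : C ≤ A) (h3 : D ≤ B) (h4 : D ≤ C)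
    (h1' : B' ≤ A') (h2' : C' ≤ A') (h3' : D' ≤ B') (h4' : D' ≤ C') :
    (p * A + q * B + (q * C + p * D)) * (p * A' + q * B' + (q * C' + p * D')) ≤
      p * (A * A') + q * (B * B') + (q * (C * C') + p * (D * D')) := by
  have hp : 0 ≤ p := hq.trans hpq
  have e1 : 0 ≤ p * q * ((A - B) * (A' - B')) :=
    mul_nonneg (mul_nonneg hp hq) (mul_nonneg (by linarith) (by linarith))
  have e2 : 0 ≤ p * q * ((A - C) * (A' - C')) :=
    mul_nonneg (mul_nonneg hp hq) (mul_nonneg (by linarith) (by linarith))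
  have e3 : 0 ≤ p * q * ((B - D) * (B' - D')) :=
    mul_nonneg (mul_nonneg hp hq) (mul_nonneg (by linarith) (by linarith))
  have e4 : 0 ≤ p * q * ((C - D) * (C' - D')) :=
    mul_nonneg (mul_nonneg hp hq) (mul_nonneg (by linarith) (by linarith))
  have hX : |B - C| ≤ A - D := abs_le.2 ⟨by linarith, by linarith⟩
  have hX' : |B' - C'| ≤ A' - D' := abs_le.2 ⟨by linarith, by linarith⟩
  have e5 : |(B - C) * (B' - C')| ≤ (A - D) * (A' - D') := by
    rw [abs_mul]
    exact mul_le_mul hX hX' (abs_nonneg _) (by linarith)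
  have e6 : 0 ≤ (A - D) * (A' - D') := mul_nonneg (by linarith) (by linarith)
  have e7 : 0 ≤ (p * p - q * q) * ((A - D) * (A' - D')) :=
    mul_nonneg (by nlinarith) e6
  have e8 : 0 ≤ q * q * ((A - D) * (A' - D') + (B - C) * (B' - C')) :=
    mul_nonneg (mul_nonneg hq hq) (by linarith [neg_abs_le ((B - C) * (B' - C'))])
  have key : p * (A * A') + q * (B * B') + (q * (C * C') + p * (D * D')) -
      (p * A + q * B + (q * C + p * D)) * (p * A' + q * B' + (q * C' + p * D')) =
      p * q * ((A - B) * (A' - B')) + p * q * ((A - C) * (A' - C')) +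
      p * q * ((B - D) * (B' - D')) + p * q * ((C - D) * (C' - D')) +
      (p * p - q * q) * ((A - D) * (A' - D')) +
      q * q * ((A - D) * (A' - D') + (B - C) * (B' - C')) := by
    have hp' : p = 1 / 2 - q := by linarith
    subst hp'
    ring
  linarith

/-- The order on pairs of coins. -/
theorem Bfkg_upd_mono {h : (V → Bool × Bool) → ℝ} (hm : Monotone h) (v : V) (a : Bool × Bool) :
    Monotone (upd h v a) := by
  intro w w' hw
  refine hm fun u => ?_
  by_cases hu : u = v
  · subst hu; simp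
  · rw [Function.update_of_ne hu, Function.update_of_ne hu]
    exact hw u

theorem Bfkg_upd_le {h : (V → Bool × Bool) → ℝ} (hm : Monotone h) (v : V) {a a' : Bool × Bool}
    (ha : a ≤ a') (w : V → Bool × Bool) : upd h v a w ≤ upd h v a' w := by
  refine hm fun u => ?_
  by_cases hu : u = v
  · subst hu; simpa using ha
  · rw [Function.update_of_ne hu, Function.update_of_ne hu]

/-- Harris-FKG for monotone functions of pairs. -/
theorem Bfkg_ex2 {Λ : Finset V} {h h' : (V → Bool × Bool) → ℝ} (ρ : V → ℝ) (hl : LF Λ h)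
    (hl' : LF Λ h') (hm : Monotone h) (hm' : Monotone h') :
    ex2 ρ h * ex2 ρ h' ≤ ex2 ρ (fun w => h w * h' w) := by
  classical
  induction Λ using Finset.induction_on generalizing h h' with
  | empty =>
    have e1 : h = fun _ => h (fun _ => (false, false)) := funext fun w => hl.empty _ _
    have e2 : h' = fun _ => h' (fun _ => (false, false)) := funext fun w => hl'.empty _ _
    rw [e1, e2, ex2_const, ex2_const, ex2_const]
  | insert v s hv ih =>
    rw [ex2_site ρ hl v, ex2_site ρ hl' v, ex2_site ρ (hl.comp₂ hl' (· * ·)) v]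
    have hH : ∀ a, ex2 ρ (upd h v a) * ex2 ρ (upd h' v a) ≤
        ex2 ρ (fun w => h (Function.update w v a) * h' (Function.update w v a)) := fun a =>
      ih (hl.upd a) (hl'.upd a) (Bfkg_upd_mono hm v a) (Bfkg_upd_mono hm' v a)
    have hle : ∀ a a' : Bool × Bool, a ≤ a' → ex2 ρ (upd h v a) ≤ ex2 ρ (upd h v a') :=
      fun a a' ha => ex2_mono ρ (hl.upd a) (hl.upd a') fun w => Bfkg_upd_le hm v ha w
    have hle' : ∀ a a' : Bool × Bool, a ≤ a' → ex2 ρ (upd h' v a) ≤ ex2 ρ (upd h' v a') :=
      fun a a' ha => ex2_mono ρ (hl'.upd a) (hl'.upd a') fun w => Bfkg_upd_le hm' v ha w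
    refine le_trans ?_ (Finset.sum_le_sum fun a _ =>
      mul_le_mul_of_nonneg_left (hH a) (wt_nonneg (ρ v) a))
    have c0 := clip_nonneg (ρ v)
    have c1 := clip_le_one (ρ v)
    have t1 : ((true, false) : Bool × Bool) ≤ (true, true) := by decide
    have t2 : ((false, true) : Bool × Bool) ≤ (true, true) := by decide
    have t3 : ((false, false) : Bool × Bool) ≤ (true, false) := by decide
    have t4 : ((false, false) : Bool × Bool) ≤ (false, true) := by decide
    have h4 := Bfkg_four (p := (1 - clip (ρ v)) / 2 + clip (ρ v) / 4) (q := clip (ρ v) / 4)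
      (by linarith) (by linarith) (by ring) (hle _ _ t1) (hle _ _ t2) (hle _ _ t3) (hle _ _ t4)
      (hle' _ _ t1) (hle' _ _ t2) (hle' _ _ t3) (hle' _ _ t4)
    have e1 : ∀ g : Bool × Bool → ℝ, ∑ a : Bool × Bool, wt (ρ v) a * g a =
        ((1 - clip (ρ v)) / 2 + clip (ρ v) / 4) * g (true, true) +
          clip (ρ v) / 4 * g (true, false) + (clip (ρ v) / 4 * g (false, true) +
            ((1 - clip (ρ v)) / 2 + clip (ρ v) / 4) * g (false, false)) := by
      intro g
      rw [Fintype.sum_prod_type]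
      simp only [Fintype.sum_bool, wt_eq]
      simp
      ring
    have e2 := e1 (fun a => ex2 ρ (upd h v a))
    have e3 := e1 (fun a => ex2 ρ (upd h' v a))
    have e4 := e1 (fun a => ex2 ρ (upd h v a) * ex2 ρ (upd h' v a))
    have e5 : ∑ a : Bool × Bool, wt (ρ v) a * ex2 ρ (fun w => h (Function.update w v a)) =
      ∑ a : Bool × Bool, wt (ρ v) a * ex2 ρ (upd h v a) := rfl
    have e6 : ∑ a : Bool × Bool, wt (ρ v) a * ex2 ρ (fun w => h' (Function.update w v a)) =
      ∑ a : Bool × Bool, wt (ρ v) a * ex2 ρ (upd h' v a) := rfl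
    rw [e5, e6, e2, e3, e4]
    exact h4

/-- Harris-FKG for antitone functions of pairs. -/
theorem Bfkg_ex2_anti {Λ : Finset V} {h h' : (V → Bool × Bool) → ℝ} (ρ : V → ℝ) (hl : LF Λ h)
    (hl' : LF Λ h') (hm : Antitone h) (hm' : Antitone h') :
    ex2 ρ h * ex2 ρ h' ≤ ex2 ρ (fun w => h w * h' w) := by
  have h1 := Bfkg_ex2 ρ (hl.comp (fun x => -1 * x)) (hl'.comp (fun x => -1 * x))
    (fun w w' hw => by have := hm hw; show -1 * h w ≤ -1 * h w'; linarith)
    (fun w w' hw => by have := hm' hw; show -1 * h' w ≤ -1 * h' w'; linarith)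
  rw [ex2_mul, ex2_mul] at h1
  have e1 : (fun w => -1 * h w * (-1 * h' w)) = fun w => h w * h' w := by
    funext w; ring
  rw [e1] at h1
  linarith

/-- Harris-FKG, one monotone and one antitone function of pairs. -/
theorem Bfkg_ex2_neg {Λ : Finset V} {h h' : (V → Bool × Bool) → ℝ} (ρ : V → ℝ) (hl : LF Λ h)
    (hl' : LF Λ h') (hm : Monotone h) (hm' : Antitone h') :
    ex2 ρ (fun w => h w * h' w) ≤ ex2 ρ h * ex2 ρ h' := by
  have h1 := Bfkg_ex2 ρ hl (hl'.comp (fun x => -1 * x)) hm
    (fun w w' hw => by have := hm' hw; show -1 * h' w ≤ -1 * h' w'; linarith)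
  rw [ex2_mul] at h1
  have e1 : (fun w => h w * (-1 * h' w)) = fun w => -1 * (h w * h' w) := by
    funext w; ring
  rw [e1, ex2_mul] at h1
  linarith

/-- The function of a pair of configurations given by an increasing event. -/
theorem Bfkg_pair_mono {F : Set (V → Bool)} (hF : Mon true F) :
    Monotone (fun w : V → Bool × Bool => ind F (fun v => (w v).1) * ind F (fun v => (w v).2)) := by
  have h0 : ∀ b b' : V → Bool, b ≤ b' → ind F b ≤ ind F b' := by
    intro b b' hb
    by_cases h1 : b ∈ F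
    · rw [ind_of_mem h1, ind_of_mem (hF b b' (fun v hv => ?_) h1)]
      have := hb v
      rw [hv] at this
      exact top_le_iff.1 this
    · rw [ind_of_notMem h1]; exact ind_nonneg _ _
  intro w w' hw
  exact mul_le_mul (h0 _ _ fun v => (hw v).1) (h0 _ _ fun v => (hw v).2) (ind_nonneg _ _)
    (ind_nonneg _ _)

/-- The function of a pair of configurations given by a decreasing event. -/
theorem Bfkg_pair_anti {F : Set (V → Bool)} (hF : Mon false F) :
    Antitone (fun w : V → Bool × Bool => ind F (fun v => (w v).1) * ind F (fun v => (w v).2)) := by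
  have h0 : ∀ b b' : V → Bool, b ≤ b' → ind F b' ≤ ind F b := by
    intro b b' hb
    by_cases h1 : b' ∈ F
    · rw [ind_of_mem h1, ind_of_mem (hF b' b (fun v hv => ?_) h1)]
      have := hb v
      rw [hv] at this
      exact le_bot_iff.1 this
    · rw [ind_of_notMem h1]; exact ind_nonneg _ _
  intro w w' hw
  exact mul_le_mul (h0 _ _ fun v => (hw v).1) (h0 _ _ fun v => (hw v).2) (ind_nonneg _ _)
    (ind_nonneg _ _)

theorem Bfkg : Bfkg_stmt := by
  intro ρ k F G A hF hG mF mG
  obtain ⟨Λ, -, h1, h2⟩ := hF.common hG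
  have h3 : Dep (F ∩ G) (Λ : Set V) := fun b b' hb =>
    and_congr (h1 b b' hb) (h2 b b' hb)
  rw [Q_eq ρ h1 h1, Q_eq ρ h2 h2, Q_eq ρ h3 h3]
  have e : bf ρ (ind (F ∩ G)) (ind (F ∩ G)) =
      ex2 ρ (fun w => (ind F (fun v => (w v).1) * ind F (fun v => (w v).2)) *
        (ind G (fun v => (w v).1) * ind G (fun v => (w v).2))) := by
    unfold bf
    congr 1
    funext w
    rw [ind_inter, ind_inter]
    ring
  rw [e]
  cases k with
  | true =>
    exact Bfkg_ex2 ρ (lf_pair h1.lf h1.lf) (lf_pair h2.lf h2.lf) (Bfkg_pair_mono mF)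
      (Bfkg_pair_mono mG)
  | false =>
    exact Bfkg_ex2_anti ρ (lf_pair h1.lf h1.lf) (lf_pair h2.lf h2.lf)
      (Bfkg_pair_anti mF) (Bfkg_pair_anti mG)

end DP
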