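import Pool.Agent.helper95.DP.SpecH
import Pool.Agent.helper96.DP.Basic

/-!
# Dictionary for black clusters (project dp, module HDB)
-/

namespace DP

/-- Lower end point of the edge (or vertex) represented by a site. -/
def HDB_lo (v : V) : ℤ × ℤ := (v.1 / 2, v.2 / 2)

/-- Upper end point of the edge (or vertex) represented by a site. -/
def HDB_hi (v : V) : ℤ × ℤ := ((v.1 + 1) / 2, (v.2 + 1) / 2)

theorem HDB_lo_hi {ω : DynPerc.Edge → Bool} {b : V → Bool} (hb : ∀ e, b (site e) = ω e) {v : V}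
    (hv : col b v = true) : (DynPerc.openGraph ω).Reachable (HDB_lo v) (HDB_hi v) := by
  unfold col at hv
  by_cases h0 : v.1 % 2 = 0 ∧ v.2 % 2 = 0
  · have h1 : HDB_lo v = HDB_hi v := by
      unfold HDB_lo HDB_hi
      ext
      · show v.1 / 2 = (v.1 + 1) / 2; omega
      · show v.2 / 2 = (v.2 + 1) / 2; omega
    rw [h1]
  · rw [if_neg h0] at hv
    by_cases h1 : v.1 % 2 = 1 ∧ v.2 % 2 = 1
    · rw [if_pos h1] at hv; simp at hv
    · rw [if_neg h1] at hv
      have hadj : DynPerc.Z2.Adj (HDB_lo v) (HDB_hi v) := by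
        show |v.1 / 2 - (v.1 + 1) / 2| + |v.2 / 2 - (v.2 + 1) / 2| = 1
        rw [Int.abs_eq_natAbs, Int.abs_eq_natAbs]
        omega
      have hs : site ⟨s(HDB_lo v, HDB_hi v), (SimpleGraph.mem_edgeSet _).2 hadj⟩ = v := by
        show HDB_lo v + HDB_hi v = v
        ext
        · show v.1 / 2 + (v.1 + 1) / 2 = v.1; omega
        · show v.2 / 2 + (v.2 + 1) / 2 = v.2; omega
      refine SimpleGraph.Adj.reachable ⟨(SimpleGraph.mem_edgeSet _).2 hadj, ?_⟩
      rw [← hb, hs]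
      exact hv

theorem HDB_step {ω : DynPerc.Edge → Bool} {b : V → Bool} (hb : ∀ e, b (site e) = ω e) {v w : V}
    (ha : Adj v w) (hv : col b v = true) (hw : col b w = true) :
    (DynPerc.openGraph ω).Reachable (HDB_lo v) (HDB_lo w) := by
  have hv1 : ¬ (v.1 % 2 = 1 ∧ v.2 % 2 = 1) := by
    intro h
    unfold col at hv
    rw [if_neg (by omega), if_pos h] at hv
    simp at hv
  have hw1 : ¬ (w.1 % 2 = 1 ∧ w.2 % 2 = 1) := by
    intro h
    unfold col at hw
    rw [if_neg (by omega), if_pos h] at hw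
    simp at hw
  obtain ⟨h1, h2⟩ := ha
  unfold sd at h1
  rw [Int.even_iff] at h2
  have h3 : (v.1 / 2 = w.1 / 2 ∧ v.2 / 2 = w.2 / 2) ∨
      (v.1 / 2 = (w.1 + 1) / 2 ∧ v.2 / 2 = (w.2 + 1) / 2) ∨
      ((v.1 + 1) / 2 = w.1 / 2 ∧ (v.2 + 1) / 2 = w.2 / 2) := by
    omega
  rcases h3 with h3 | h3 | h3
  · have e : HDB_lo v = HDB_lo w := Prod.ext h3.1 h3.2
    rw [e]
  · have e : HDB_lo v = HDB_hi w := Prod.ext h3.1 h3.2
    rw [e]
    exact (HDB_lo_hi hb hw).symm
  · have e : HDB_hi v = HDB_lo w := Prod.ext h3.1 h3.2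
    rw [← e]
    exact HDB_lo_hi hb hv

theorem HDB_conn {ω : DynPerc.Edge → Bool} {b : V → Bool} (hb : ∀ e, b (site e) = ω e) {u v : V}
    (h : Conn (col b) true Set.univ u v) :
    (DynPerc.openGraph ω).Reachable (HDB_lo u) (HDB_lo v) := by
  obtain ⟨h0, h1⟩ := h
  have key : col b v = true ∧ (DynPerc.openGraph ω).Reachable (HDB_lo u) (HDB_lo v) := by
    induction h1 with
    | refl => exact ⟨h0.2, SimpleGraph.Reachable.refl _⟩
    | tail _ hab ih => exact ⟨hab.2.2, ih.2.trans (HDB_step hb hab.1 ih.1 hab.2.2)⟩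
  exact key.2

/-- The fibres of `HDB_lo` are finite. -/
theorem HDB_infinite {S : Set V} (hS : S.Infinite) : (HDB_lo '' S).Infinite := by
  intro hfin
  apply hS
  have h1 : (HDB_lo ⁻¹' (HDB_lo '' S)).Finite := by
    refine hfin.preimage' fun a _ => ?_
    refine Set.Finite.subset ((Set.finite_Icc (2 * a.1) (2 * a.1 + 1)).prod
      (Set.finite_Icc (2 * a.2) (2 * a.2 + 1))) fun v hv => ?_
    have h2 : HDB_lo v = a := hv
    have h3 : v.1 / 2 = a.1 := congrArg Prod.fst h2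
    have h4 : v.2 / 2 = a.2 := congrArg Prod.snd h2
    refine ⟨⟨?_, ?_⟩, ⟨?_, ?_⟩⟩ <;> omega
  exact h1.subset (Set.subset_preimage_image _ _)

theorem HDB : HDB_stmt := by
  intro ω b hb hP
  obtain ⟨u, hu⟩ := hP
  refine ⟨(DynPerc.openGraph ω).connectedComponentMk (HDB_lo u), ?_⟩
  refine (HDB_infinite hu).mono ?_
  rintro _ ⟨v, hv, rfl⟩
  rw [SimpleGraph.ConnectedComponent.mem_supp_iff, SimpleGraph.ConnectedComponent.eq]
  exact (HDB_conn hb hv).symm

end DP
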